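import Pool.Agent.W2helper75.OB.Fin
import Pool.Agent.H342R2.Per.Big
import Pool.Agent.W2helper82.OA.Stm

/-!
# Outer boundaries, almost sure lower bound: from the lattice statement to the limits
-/

set_option autoImplicit false

namespace Pool.Agent.W2helper82.OA.P20

open H974 H12S Finset H389NS H984P H984N H342P H342L H342T
open MeasureTheory Filter Topology Pool.Agent.W92.DP Pool.Agent.W822.PD Pool.Agent.W978.PDUL
open Pool.Agent.W424.OD Pool.Agent.W462.DPL Pool.Agent.H389R2.Dim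
open Pool.Agent.Y989.FR (Qc Awy S_CHN S_QC)
open Pool.Agent.Y989.FR.LIM3 (mem_AE_sd sd_bdB)
open Pool.Agent.Y989.FR.LG (AA_mono isClosed_good_AA isCompact_AA)
open Pool.Agent.W2helper75.OB (bdry_of_avoid Avo pt_le pt_adj sd_edge SPo chainO startO awayO pt_norm
  cl_eq ul3 e43 geoO Qc_rep isClosed_good_curveO t_rng rect_path)
open Pool.Agent.Y989.FR.TWO3 (sd_self)
open scoped ENNReal NNReal

/-- the last vertex of a path in the cluster -/
theorem last_in {F : Finset Edg} {v : Vtx} {D : Set Edg} {w x : Vtx} (h : Reach D w x)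
    (hx : x ∉ Plain.cluster F v) : (w ∉ Plain.cluster F v ∧ Reach (Avo F v) w x) ∨
    ∃ u p, u ∈ Plain.cluster F v ∧ p ∉ Plain.cluster F v ∧ Adj D u p ∧ Reach D w u ∧
      Reach (Avo F v) p x := by
  unfold Reach at h
  induction h using Relation.ReflTransGen.head_induction_on with
  | refl => exact Or.inl ⟨hx, Reach.refl _ _⟩
  | @head a b hab hb ih =>
    rcases ih with ⟨h1, h2⟩ | ⟨u, p, h1, h2, h3, h4, h5⟩
    · by_cases ha : a ∈ Plain.cluster F v
      · exact Or.inr ⟨a, b, ha, h1, hab, Reach.refl _ _, h2⟩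
      · refine Or.inl ⟨ha, Reach.trans (Adj.reach ?_) h2⟩
        obtain ⟨e, he, hc⟩ := hab
        refine ⟨e, ?_, hc⟩
        rw [Plain.mem_cluster] at ha h1
        rcases hc with ⟨h1', h2'⟩ | ⟨h1', h2'⟩
        · exact ⟨by rw [h1']; exact ha, by rw [h2']; exact h1⟩
        · exact ⟨by rw [h1']; exact h1, by rw [h2']; exact ha⟩
    · exact Or.inr ⟨u, p, h1, h2, h3, (Adj.reach hab).trans h4, h5⟩

/-- a vertex on a thick path is not in the set -/
theorem awy_nmem {M B k : ℕ} {w x : Vtx} {W : Set Vtx} (h : ∀ c ∈ W, Awy M B k w c x) : x ∉ W := by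
  intro hx
  have h1 := h x hx
  unfold Awy at h1
  rw [sd_self, mul_zero] at h1
  have h2 : 0 ≤ sd x w ^ B := pow_nonneg (Pool.Agent.W2helper75.OB.sd_nonneg' x w) B
  omega

/-- the thick path avoids the cluster -/
theorem thick_avo {M B k : ℕ} {F : Finset Edg} {v w x y : Vtx}
    (h : Reach {e | e ∈ Pool.Agent.Y989.FR.AE w 2 k ∧ (∀ c ∈ Plain.cluster F v, Awy M B k w c (src e)) ∧
      ∀ c ∈ Plain.cluster F v, Awy M B k w c (tgt e)} x y) : Reach (Avo F v) x y := by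
  refine h.mono ?_
  rintro e ⟨-, h1, h2⟩
  have h3 := awy_nmem h1
  have h4 := awy_nmem h2
  rw [Plain.mem_cluster] at h3 h4
  exact ⟨h3, h4⟩

theorem sd_le_iff {u w : Vtx} {k : ℤ} : sd u w ≤ k ↔ (w.1 - k ≤ u.1 ∧ u.1 ≤ w.1 + k) ∧
    (w.2 - k ≤ u.2 ∧ u.2 ≤ w.2 + k) := by
  unfold sd
  rw [max_le_iff, abs_le, abs_le]
  constructor <;> rintro ⟨⟨h1, h2⟩, h3, h4⟩ <;> refine ⟨⟨?_, ?_⟩, ?_, ?_⟩ <;> linarith

theorem mem_blk_iff {w : Vtx} {k : ℕ} {e : Edg} :
    e ∈ blk w k ↔ sd (src e) w ≤ k ∧ sd (tgt e) w ≤ k := by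
  rw [sd_le_iff, sd_le_iff]
  unfold blk
  obtain ⟨x, y, _ | _⟩ := e
  · rw [mem_RE_false, src_mk, tgt_false]
    simp only
    omega
  · rw [mem_RE_true, src_mk, tgt_true]
    simp only
    omega

theorem src_sd_blk {w : Vtx} {k : ℕ} {e : Edg} (he : e ∈ blk w k) : sd (src e) w ≤ k ∧ sd (tgt e) w ≤ k :=
  mem_blk_iff.1 he

theorem reach_sd {w : Vtx} {k : ℕ} {D : Set Edg} (hD : D ⊆ ↑(blk w k)) {u : Vtx} (h : Reach D w u) :
    sd u w ≤ k := by
  rcases Relation.ReflTransGen.cases_tail h with h | ⟨c, -, g, hg, h⟩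
  · rw [h, sd_self]; positivity
  · have h1 := src_sd_blk (Finset.mem_coe.1 (hD hg))
    rcases h with ⟨h2, h3⟩ | ⟨h2, h3⟩
    · rw [← h3]; exact h1.2
    · rw [← h2]; exact h1.1

theorem blk_conn {w x : Vtx} {k : ℕ} (h : sd x w ≤ k) : Reach (↑(blk w k) : Set Edg) w x := by
  refine (rect_path (fun u => sd u w ≤ k) w x ?_).mono ?_
  · intro u h1 h2
    rw [sd_le_iff] at h ⊢
    omega
  · intro e he
    exact Finset.mem_coe.2 (mem_blk_iff.2 he)

/-- a cluster vertex with a thick path is near the outer boundary -/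
theorem near {n : ℕ} (hn : 2 ≤ n) {F : Finset Edg} (hF : F ⊆ Plain.edges n) {v w : Vtx}
    (hv : v ∈ Plain.box n) (hw : w ∈ Plain.cluster F v) {M B : ℕ}
    (hth : Thk M B (2 * n) w (Plain.cluster F v)) :
    ∃ u, sd u w ≤ 2 ∧ pt n u ∈ outerBoundary n F v := by
  have hn0 : 0 < n := by omega
  obtain ⟨x, hx, y, hy, hr⟩ := hth
  have hx' := sd_bdB hx
  have hy' := sd_bdB hy
  have hxy : x ≠ y := by
    rintro rfl
    rw [hx'] at hy'
    have : (2:ℕ) = 2 * n := by exact_mod_cast hy'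
    omega
  have hxC : x ∉ Plain.cluster F v := by
    rcases Relation.ReflTransGen.cases_head hr with h | ⟨c, ⟨g, ⟨h1, h2, h3⟩, h4⟩, -⟩
    · exact absurd h hxy
    · rcases h4 with ⟨h6, h7⟩ | ⟨h6, h7⟩
      · rw [← h6]; exact awy_nmem h2
      · rw [← h7]; exact awy_nmem h3
  have hwb : w ∈ Plain.box n := TOPB_cluster hF hv hw
  have hyb : y ∉ Plain.box n := by
    intro hyb
    unfold Plain.box at hyb hwb
    rw [Finset.mem_product, Finset.mem_Icc, Finset.mem_Icc] at hyb hwb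
    have h1 : sd y w ≤ n := by
      unfold sd
      apply max_le <;> rw [abs_le] <;> omega
    rw [hy'] at h1
    push_cast at h1
    omega
  have hya := thick_avo hr
  have h2 : Reach (↑(blk w 2) : Set Edg) w x := blk_conn (by rw [hx'])
  rcases last_in h2 hxC with ⟨h3, -⟩ | ⟨u, p, h3, h4, h5, h6, h7⟩
  · exact absurd hw h3
  · exact ⟨u, reach_sd subset_rfl h6, bdry_of_avoid hn0 hF hv h3 h5 h4 hyb (h7.trans hya)⟩

/-- Vertices with a thick path give points of the approximate set. -/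
theorem mem_QcO {n : ℕ} (hn : 2 ≤ n) {F : Finset Edg} (hF : F ⊆ Plain.edges n) {v w : Vtx}
    (hv : v ∈ Plain.box n) {c : Curve} (hT : IsTrace n F v c)
    (hwv : w ∈ Plain.cluster F v) {M B : ℕ} (hB : 1 ≤ B)
    (hth : Thk M B (2 * n) w (Plain.cluster F v)) {M' e : ℝ} (hM' : 0 ≤ M')
    (h : 2 ^ B * M * 16 ^ (B - 1) ≤ M') (he : 4 / (n : ℝ) ≤ e) (he' : M' * (1 / n) ≤ e) {N : ℕ}
    (hN : ∀ (S : Set ℂ) (a b : ℂ), (∀ x ∈ S, ‖x‖ ≤ 8) →
      a ∈ S → Relation.ReflTransGen (fun x y => y ∈ S ∧ dist x y ≤ e) a b →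
      ∃ x : Fin (N + 1) → ℂ, (∀ i, x i ∈ S) ∧ x 0 = a ∧ x (Fin.last N) = b ∧
      ∀ i : Fin N, dist (x i.castSucc) (x i.succ) ≤ e) :
    (c.path, pt n w) ∈ Qc M' 2 8 e B N := by
  have hn0 : 0 < n := by omega
  have hn' : (0:ℝ) < n := by exact_mod_cast hn0
  have hrange := (t_rng n F v c hn0 hF hv hT).2
  have hw : w ∈ Plain.box n := TOPB_cluster hF hv hwv
  obtain ⟨u0, hu0, hbd⟩ := near hn hF hv hwv hth
  obtain ⟨x, hx, y, hy, hr⟩ := hth
  have hx' := sd_bdB hx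
  have hy' := sd_bdB hy
  have hxy : x ≠ y := by
    rintro rfl
    rw [hx'] at hy'
    have : (2:ℕ) = 2 * n := by exact_mod_cast hy'
    omega
  have hpw := pt_norm hn0 hw
  have hk : ((2 * n : ℕ) : ℝ) / n = 2 := by
    push_cast
    field_simp
  have hbdd : ∀ z ∈ SPo n M B (2 * n) (Plain.cluster F v) w, ‖z‖ ≤ 8 := by
    rintro z ⟨u, hu, -, rfl⟩
    have h1 := pt_le (n := n) u w
    have h2 : ((sd u w : ℤ) : ℝ) / n ≤ 2 := by
      rw [← hk]
      exact div_le_div_of_nonneg_right (by exact_mod_cast hu) hn'.le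
    have h3 : ‖pt n u‖ ≤ ‖pt n w‖ + dist (pt n u) (pt n w) := by
      rw [dist_eq_norm]
      have := norm_add_le (pt n w) (pt n u - pt n w)
      rwa [add_sub_cancel] at this
    linarith
  have h24 : 2 / (n : ℝ) ≤ 4 / n := div_le_div_of_nonneg_right (by norm_num) hn'.le
  obtain ⟨X, h1, h2, h3, h4⟩ := hN (SPo n M B (2 * n) (Plain.cluster F v) w) (pt n x) (pt n y)
    hbdd (startO hr hxy) (chainO (h24.trans he) hr)
  have he0 : 0 ≤ e := le_trans (by positivity) he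
  refine ⟨?_, ?_, X, fun i => hbdd _ (h1 i), ?_, ?_, h4, ?_⟩
  · show ‖pt n w‖ ≤ 8
    linarith
  · show ∃ s, dist (c.path s) (pt n w) ≤ e
    rw [← hrange] at hbd
    obtain ⟨s, hs⟩ := hbd
    refine ⟨s, ?_⟩
    rw [hs]
    have := pt_le (n := n) u0 w
    have h5 : ((sd u0 w : ℤ) : ℝ) / n ≤ 2 / n :=
      div_le_div_of_nonneg_right (by exact_mod_cast hu0) hn'.le
    calc _ ≤ _ := this
      _ ≤ 2 * (2 / n) := by linarith
      _ = 4 / n := by ring
      _ ≤ e := he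
  · show dist (X 0) (pt n w) ≤ e
    rw [h2]
    have := pt_le (n := n) x w
    rw [hx'] at this
    push_cast at this
    calc _ ≤ _ := this
      _ = 4 / n := by ring
      _ ≤ e := he
  · show 2 ≤ dist (X (Fin.last N)) (pt n w) + e
    rw [h3]
    have := pt_dist hn0 y w
    rw [hy', inv_mul_eq_div] at this
    have e2 : (((2 * n : ℕ) : ℤ) : ℝ) / n = 2 := by
      push_cast
      field_simp
    rw [e2] at this
    linarith
  · intro i s
    show dist (X i) (pt n w) ^ B ≤ M' * dist (X i) (c.path s) + e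
    obtain ⟨u, -, hu, hz⟩ := h1 i
    rw [hz]
    have := awayO hn0 hT hB hu hM' (by rw [hk]; norm_num; exact h) s
    linarith

/-- The good event makes the approximate set good. -/
theorem good_of_rich {n : ℕ} (hn : 16 ≤ n) {F : Finset Edg} (hF : F ⊆ Plain.edges n) {v : Vtx}
    (hv : v ∈ Plain.box n) {c : Curve} (hT : IsTrace n F v c) {M B : ℕ} (hB : 1 ≤ B)
    {c0 E0 t : ℝ} (hG : RichOut n M B c0 E0 t (Plain.cluster F v)) (hc0 : 0 < c0) (hE0 : 0 < E0)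
    (ht : 0 < t)
    {M' ε' : ℝ} (hM' : 0 ≤ M') (h : 2 ^ B * M * 16 ^ (B - 1) ≤ M') (hε : 4 / (n : ℝ) ≤ ε')
    (hε2 : M' * (1 / n) ≤ ε') {NN : ℕ → ℕ}
    (hN : ∀ k : ℕ, ∀ (S : Set ℂ) (a b : ℂ), (∀ x ∈ S, ‖x‖ ≤ 8) →
      a ∈ S → Relation.ReflTransGen (fun x y => y ∈ S ∧ dist x y ≤ 1 / ((k : ℝ) + 1)) a b →
      ∃ x : Fin (NN k + 1) → ℂ, (∀ i, x i ∈ S) ∧ x 0 = a ∧ x (Fin.last (NN k)) = b ∧
      ∀ i : Fin (NN k), dist (x i.castSucc) (x i.succ) ≤ 1 / ((k : ℝ) + 1)) :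
    Good t ε' (2 ^ (-t) / (E0 / c0 ^ 2)) {z | z ∈ Sqc ∧ ∀ k : ℕ, ε' ≤ 1 / ((k : ℝ) + 1) →
      (c.path, z) ∈ Qc M' 2 8 (1 / ((k : ℝ) + 1)) B (NN k)} := by
  classical
  have hn0 : 0 < n := by omega
  obtain ⟨V, hV, hcard, hEn⟩ := hG
  have hn' : (0:ℝ) < n := by exact_mod_cast hn0
  have hcpos : (0 : ℝ) < (V.card : ℝ) := lt_of_lt_of_le (by positivity) hcard
  have hne : V.Nonempty := by
    rw [← Finset.card_pos]; exact_mod_cast hcpos
  have hε0 : 0 < ε' := lt_of_lt_of_le (by positivity) hε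
  refine good_of_energy hε0 ht.le (by positivity) (V.image (pt n)) (hne.image _) ?_ ?_
  · intro z hz
    rw [Finset.mem_coe, Finset.mem_image] at hz
    obtain ⟨w, hw, rfl⟩ := hz
    obtain ⟨hwC, hTh⟩ := hV w hw
    have hwb : w ∈ Plain.box n := TOPB_cluster hF hv hwC
    refine ⟨?_, fun k hk => ?_⟩
    · obtain ⟨⟨a1, a2⟩, a3, a4⟩ := CPT_pt_box hn0 hwb
      exact ⟨a1, a2, a3, a4⟩
    · exact mem_QcO (by omega) hF hv hT hwC hB hTh hM' h (hε.trans hk) (hε2.trans hk) (hN k)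
  · rw [Finset.sum_image (fun a _ b _ hab => pt_inj hn0 hab),
      Finset.card_image_of_injective _ (pt_inj hn0)]
    have e1 : ∀ v ∈ V, ∑ y ∈ V.image (pt n),
        (max (dist (pt n v) y) ε') ^ (-t) ≤
        ∑ w ∈ V, ((n:ℝ)⁻¹) ^ (-t) * ((max (sd v w) 1 : ℤ) : ℝ) ^ (-t) := by
      intro v _
      rw [Finset.sum_image (fun a _ b _ hab => pt_inj hn0 hab)]
      refine Finset.sum_le_sum fun w _ => ?_
      have hm : (1 : ℝ) ≤ ((max (sd v w) 1 : ℤ) : ℝ) := by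
        exact_mod_cast le_max_right (sd v w) 1
      rw [← Real.mul_rpow (by positivity) (by linarith)]
      refine Real.rpow_le_rpow_of_nonpos (by positivity) ?_ (by linarith)
      have h6 := pt_dist hn0 v w
      rcases max_cases (sd v w) 1 with h | h
      · rw [h.1]; exact h6.trans (le_max_left _ _)
      · rw [h.1]; push_cast; rw [mul_one]
        refine le_trans ?_ (le_max_right _ _)
        rw [← one_div]
        exact (div_le_div_of_nonneg_right (by norm_num) hn'.le).trans hε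
    refine (Finset.sum_le_sum e1).trans ?_
    have e2 : ∑ v ∈ V, ∑ w ∈ V,
        ((n:ℝ)⁻¹) ^ (-t) * ((max (sd v w) 1 : ℤ) : ℝ) ^ (-t) = ((n:ℝ)⁻¹) ^ (-t) * Enr t V := by
      unfold Enr
      rw [Finset.mul_sum]
      refine Finset.sum_congr rfl fun v _ => ?_
      rw [Finset.mul_sum]
    rw [e2]
    have e3 : (c0 * (n : ℝ) ^ (4/3 : ℝ)) ^ 2 ≤ (V.card : ℝ) ^ 2 :=
      pow_le_pow_left₀ (by positivity) hcard 2
    have e4 : (c0 * (n : ℝ) ^ (4/3 : ℝ)) ^ 2 = c0 ^ 2 * (n : ℝ) ^ (8/3 : ℝ) := by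
      rw [mul_pow, ← Real.rpow_natCast ((n : ℝ) ^ (4/3 : ℝ)) 2, ← Real.rpow_mul hn'.le]
      norm_num
    rw [e4] at e3
    have e5 : ((n:ℝ)⁻¹) ^ (-t) = (n:ℝ) ^ t := by
      rw [Real.inv_rpow hn'.le, Real.rpow_neg hn'.le, inv_inv]
    rw [e5]
    calc (n:ℝ) ^ t * Enr t V ≤ (n:ℝ) ^ t * (E0 * (n : ℝ) ^ (8/3 - t)) :=
          mul_le_mul_of_nonneg_left hEn (by positivity)
      _ = E0 / c0 ^ 2 * (c0 ^ 2 * (n : ℝ) ^ (8/3 : ℝ)) := by
          have : (n:ℝ) ^ t * (n : ℝ) ^ (8/3 - t) = (n : ℝ) ^ (8/3 : ℝ) := by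
            rw [← Real.rpow_add hn']
            congr 1
            ring
          rw [← this]
          field_simp
      _ ≤ E0 / c0 ^ 2 * (V.card : ℝ) ^ 2 := mul_le_mul_of_nonneg_left e3 (by positivity)

theorem clu_eq {n : ℕ} {F : Finset Edg} (hF : F ⊆ RE 0 n 0 n) (v : Vtx) :
    Clu n v F = Plain.cluster F v := by
  ext x
  unfold Clu
  rw [Plain.mem_cluster, Set.mem_ofPred_eq, ← Finset.coe_inter, Finset.inter_eq_left.2 hF]

/-- the scale of the big clusters -/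
theorem scale (q : ℝ) (hq : 0 < q) : ∃ K' N1 : ℕ, 1 ≤ K' ∧ ∀ n : ℕ, N1 ≤ n → ∃ m : ℕ,
    n ≤ K' * m ∧ m ≤ n ∧ 0 < m ∧
    Pr (fun _ => (1/2:ℝ)) (RE 0 n 0 n) (fun F => ¬ Big n (m : ℤ) (↑F)) ≤ q := by
  obtain ⟨K, hK⟩ := exists_pow_lt_of_lt_one hq (by norm_num : (1/2 : ℝ) < 1)
  refine ⟨6 * (K + 1), 12 * (K + 1) ^ 2, by omega, fun n hn => ?_⟩
  obtain ⟨L, hL⟩ : ∃ L, L = n / (K + 1) := ⟨_, rfl⟩
  have h1 : (K + 1) * L ≤ n := by rw [hL]; exact Nat.mul_div_le n (K + 1)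
  have h2 : n < (K + 1) * (L + 1) := by
    rw [hL]; exact Nat.lt_mul_div_succ n (Nat.succ_pos K)
  have h3 : 12 * (K + 1) ≤ L := by
    rw [hL, Nat.le_div_iff_mul_le (Nat.succ_pos K)]
    calc 12 * (K + 1) * (K + 1) = 12 * (K + 1) ^ 2 := by ring
      _ ≤ n := hn
  refine ⟨L / 3, ?_, ?_, by omega, ?_⟩
  · have h4 : L + 1 ≤ 6 * (L / 3) := by omega
    calc n ≤ (K + 1) * (L + 1) := h2.le
      _ ≤ (K + 1) * (6 * (L / 3)) := Nat.mul_le_mul_left _ h4
      _ = 6 * (K + 1) * (L / 3) := by ring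
  · have : L ≤ (K + 1) * L := Nat.le_mul_of_pos_left L (Nat.succ_pos K)
    omega
  · refine (pr_not_big (n := n) (L := L) (K := K) (by omega) (by positivity) ?_ ?_ ?_).trans hK.le
    · have : 3 * (L / 3) ≤ L := Nat.mul_div_le L 3
      exact_mod_cast this
    · have : K * L + K ≤ (K + 1) * L + 0 := by nlinarith
      calc K * (L + 1) = K * L + K := by ring
        _ ≤ (K + 1) * L := this
        _ ≤ n := h1
        _ ≤ n + 1 := Nat.le_succ n
    · have : L ≤ (K + 1) * L := Nat.le_mul_of_pos_left L (Nat.succ_pos K)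
      omega

/-- a big cluster of largest diameter is extended in one coordinate -/
theorem ext_of_big {n m : ℕ} {F : Finset Edg} (hm : 0 < m) (hF : F ⊆ Plain.edges n) {v : Vtx}
    (hL : Plain.Largest n F v) (hb : Big n (m : ℤ) (↑F)) : ∃ a b : Vtx, inR 0 n 0 n a ∧
      a ∈ Plain.cluster F v ∧ b ∈ Plain.cluster F v ∧ (a.1 + m ≤ b.1 ∨ a.2 + m ≤ b.2) := by
  obtain ⟨hv, a, ha, b, hb', hmax⟩ := hL
  obtain ⟨c, d, hc, hd, hcd, h8⟩ := hb
  have hcb : c ∈ Plain.box n := by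
    unfold Plain.box inR at *
    rw [Finset.mem_product, Finset.mem_Icc, Finset.mem_Icc]
    omega
  have hdb : d ∈ Plain.box n := by
    unfold Plain.box inR at *
    rw [Finset.mem_product, Finset.mem_Icc, Finset.mem_Icc]
    omega
  have h1 := hmax c hcb d hdb (by rw [Plain.mem_cluster]; exact hcd)
  have hbox : ∀ x ∈ Plain.cluster F v, inR 0 n 0 n x := by
    intro x hx
    have := TOPB_cluster hF hv hx
    rw [Finset.mem_coe] at this
    unfold Plain.box at this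
    rw [Finset.mem_product, Finset.mem_Icc, Finset.mem_Icc] at this
    unfold inR
    omega
  unfold dsq at h8
  unfold Plain.sqDist at h1
  have h9 : 8 * (m : ℤ) ^ 2 ≤ (a.1 - b.1) ^ 2 + (a.2 - b.2) ^ 2 := by linarith
  by_contra hcon
  push Not at hcon
  have e1 := hcon a b (hbox a ha) ha hb'
  have e2 := hcon b a (hbox b hb') hb' ha
  have e3 : (a.1 - b.1) ^ 2 ≤ (m : ℤ) ^ 2 := sq_le_sq' (by omega) (by omega)
  have e4 : (a.2 - b.2) ^ 2 ≤ (m : ℤ) ^ 2 := sq_le_sq' (by omega) (by omega)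
  have e5 : 0 < (m : ℤ) ^ 2 := by positivity
  omega

/-- one exponent -/
theorem one_exp (hqc : S_QC) (hchn : S_CHN) (hG : S_FINL)
    {sel : (n : ℕ) → Finset Plain.Edge → ℤ × ℤ} {γ : (n : ℕ) → Finset Plain.Edge → Curve}
    (hT : Tr sel γ) {k : ℕ → ℕ} (hk : Tendsto k atTop atTop) {μ : ProbabilityMeasure Curve}
    (hμ : Tendsto (fun i => lawOf (k i) (γ (k i))) atTop (𝓝 μ)) {t : ℝ} (ht : 0 < t)
    (ht1 : t < 4 / 3) {η : ℝ} (hη : 0 < η) :
    ∃ S : Set Curve, MeasurableSet S ∧ (μ : Measure Curve) S ≤ ENNReal.ofReal (η + η) ∧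
      ∀ c : Curve, Set.range c.path ⊆ Sqc → c ∉ S →
        ENNReal.ofReal t ≤ dimH (oB (Set.range c.path)) := by
  obtain ⟨K', N0, hK', hsc⟩ := scale η hη
  obtain ⟨M, B, n0, c0, E0, hB, hc0, hE0, hGt⟩ := hG t ht ht1 K' η hK' hη
  obtain ⟨M', hM'⟩ : ∃ M' : ℝ, M' = 2 ^ B * (M + 1) * 16 ^ (B - 1) := ⟨_, rfl⟩
  have hM'0 : 0 < M' := by rw [hM']; positivity
  have hMM' : 2 ^ B * (M : ℝ) * 16 ^ (B - 1) ≤ M' := by
    rw [hM']
    have : (2 : ℝ) ^ B * M ≤ 2 ^ B * (M + 1) :=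
      mul_le_mul_of_nonneg_left (by linarith) (by positivity)
    exact mul_le_mul_of_nonneg_right this (by positivity)
  obtain ⟨NN, hNN⟩ := Classical.axiomOfChoice (fun k : ℕ =>
    hchn 8 (1 / ((k : ℝ) + 1)) (by positivity))
  set ct : ℝ := 2 ^ (-t) / (E0 / c0 ^ 2) with hct
  have hct0 : 0 < ct := by positivity
  set Q : ℕ → Set (C(unitInterval, ℂ) × ℂ) :=
    fun k => Qc M' 2 8 (1 / ((k : ℝ) + 1)) B (NN k) with hQdef
  have hQ : ∀ k, IsClosed (Q k) := fun k => hqc _ _ _ _ _ _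
  have hK := isCompact_Sqc
  have hclosed : ∀ ε' : ℝ, IsClosed {c : Curve | Good t ε' ct (Pool.Agent.Y989.FR.LG.AA Sqc Q ε' c.path)} :=
    fun ε' => isClosed_good_curveO hQ hK fun k f φ z h => Qc_rep φ h
  have hopen : ∀ ε' : ℝ, IsOpen {c : Curve | ¬ Good t ε' ct (Pool.Agent.Y989.FR.LG.AA Sqc Q ε' c.path)} :=
    fun ε' => (hclosed ε').isOpen_compl
  -- the lattice bound
  have h1 : ∀ ε' : ℝ, 0 < ε' → ∀ᶠ i in atTop, (lawOf (k i) (γ (k i)) : Measure Curve)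
      {c : Curve | ¬ Good t ε' ct (Pool.Agent.Y989.FR.LG.AA Sqc Q ε' c.path)} ≤ ENNReal.ofReal (η + η) := by
    intro ε' hε'
    obtain ⟨n1, hn1⟩ := exists_nat_gt (4 / ε')
    obtain ⟨n2, hn2⟩ := exists_nat_gt (M' / ε')
    have hev : ∀ᶠ i in atTop, max (max n0 N0) (max (max n1 n2) 16) ≤ k i := tendsto_atTop.mp hk _
    filter_upwards [hev] with i hi
    rw [max_le_iff, max_le_iff, max_le_iff, max_le_iff] at hi
    obtain ⟨⟨hi0, hi4⟩, ⟨hi1, hi2⟩, hi3⟩ := hi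
    have hki : 0 < k i := by omega
    have hkpos : (0:ℝ) < k i := by exact_mod_cast hki
    have hk1 : (n1 : ℝ) ≤ k i := by exact_mod_cast hi1
    have hk2 : (n2 : ℝ) ≤ k i := by exact_mod_cast hi2
    rw [lawOf_apply _ _ (hopen ε').measurableSet]
    apply ENNReal.ofReal_le_ofReal
    obtain ⟨m, hm1, hm2, hm3, hm4⟩ := hsc (k i) hi4
    have h2 := hGt (k i) m hi0 hm1 hm2
    have h3 : Plain.prob (k i) (fun F => γ (k i) F ∈
        {c : Curve | ¬ Good t ε' ct (Pool.Agent.Y989.FR.LG.AA Sqc Q ε' c.path)}) ≤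
        Pr (fun _ => (1 / 2 : ℝ)) (RE 0 (k i) 0 (k i))
          (fun F => (∃ u v : Vtx, inR 0 (k i) 0 (k i) u ∧ v ∈ Clu (k i) u F ∧
            (u.1 + m ≤ v.1 ∨ u.2 + m ≤ v.2) ∧ ¬ RichOut (k i) M B c0 E0 t (Clu (k i) u F)) ∨
            ¬ Big (k i) (m : ℤ) (↑F)) := by
      refine Plain.prob_le_of_pr ?_
      intro F hF hbad
      by_contra hcon
      push Not at hcon
      obtain ⟨hgd, hbig⟩ := hcon
      apply hbad
      have hL := hT.1 _ _ hki hF
      have hF' : F ⊆ RE 0 (k i) 0 (k i) := by rwa [← Plain.edges_eq]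
      obtain ⟨a, b, hab1, hab2, hab3, hab4⟩ := ext_of_big hm3 hF hL hbig
      have h4 := hgd a b hab1 (by rw [clu_eq hF', cl_eq hab2]; exact hab3) hab4
      rw [clu_eq hF', cl_eq hab2] at h4
      refine good_of_rich hi3 hF hL.1 (hT.2 _ _ hki hF) hB h4 hc0 hE0 ht hM'0.le
        hMM' ?_ ?_ hNN
      · rw [div_le_iff₀ hkpos]
        rw [div_lt_iff₀ hε'] at hn1
        nlinarith
      · rw [mul_one_div, div_le_iff₀ hkpos]
        rw [div_lt_iff₀ hε'] at hn2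
        nlinarith
    refine h3.trans ((Pr_or_le (fun _ => ⟨by norm_num, by norm_num⟩) _ _ _).trans ?_)
    exact add_le_add h2 hm4
  have h2 : ∀ ε' : ℝ, 0 < ε' → (μ : Measure Curve)
      {c : Curve | ¬ Good t ε' ct (Pool.Agent.Y989.FR.LG.AA Sqc Q ε' c.path)} ≤ ENNReal.ofReal (η + η) := by
    intro ε' hε'
    refine (ProbabilityMeasure.le_liminf_measure_open_of_tendsto hμ (hopen ε')).trans ?_
    exact liminf_le_of_frequently_le (h1 ε' hε').frequently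
  set Bd : ℕ → Set Curve := fun n =>
    {c : Curve | ¬ Good t (1 / ((n : ℝ) + 1)) ct (Pool.Agent.Y989.FR.LG.AA Sqc Q (1 / ((n : ℝ) + 1)) c.path)} with hBd
  have hmono : Monotone Bd := by
    intro n n' hnn p hp hG
    apply hp
    have h3 := hG.anti (Nat.one_div_le_one_div (α := ℝ) hnn)
    exact h3.mono (AA_mono (Nat.one_div_le_one_div hnn) p.path)
  refine ⟨⋃ n : ℕ, Bd n, MeasurableSet.iUnion fun n => (hopen _).measurableSet, ?_, ?_⟩
  · rw [hmono.measure_iUnion]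
    exact iSup_le fun n => h2 _ (by positivity)
  · intro c hc hcon
    simp only [hBd, Set.mem_iUnion, Set.mem_ofPred_eq, not_exists, not_not] at hcon
    have h4 : ∀ δ' : ℝ, 0 < δ' → Good t δ' ct (Pool.Agent.Y989.FR.LG.AA Sqc Q 0 c.path) := by
      intro δ' hδ'
      apply Pool.Agent.Y989.FR.LG.good_zero hQ hK
      intro n
      obtain ⟨m, hm⟩ := exists_nat_one_div_lt hδ'
      have h5 := hcon (max n m)
      have h6 : (1 : ℝ) / (((max n m : ℕ) : ℝ) + 1) ≤ 1 / ((n : ℝ) + 1) :=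
        Nat.one_div_le_one_div (le_max_left _ _)
      have h7 : (1 : ℝ) / (((max n m : ℕ) : ℝ) + 1) ≤ 1 / ((m : ℝ) + 1) :=
        Nat.one_div_le_one_div (le_max_right _ _)
      exact (h5.mono (AA_mono h6 c.path)).anti (h7.trans hm.le)
    refine (le_dimH_of_good ht hct0 (isCompact_AA hQ hK c.path) h4).trans (dimH_mono ?_)
    rintro z ⟨-, hz⟩
    exact geoO hM'0 hc (fun k => hz k (by positivity))

/-- **almost surely the outer boundary has dimension `4/3`** -/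
theorem lim_as (hqc : S_QC) (hchn : S_CHN) (hU : U3) (hHB : PD_HB) (hG : S_FINL)
    {sel : (n : ℕ) → Finset Plain.Edge → ℤ × ℤ}
    {γ : (n : ℕ) → Finset Plain.Edge → Curve} (hT : Tr sel γ) {k : ℕ → ℕ}
    (hk : Tendsto k atTop atTop) {μ : ProbabilityMeasure Curve}
    (hμ : Tendsto (fun i => lawOf (k i) (γ (k i))) atTop (𝓝 μ)) :
    ∀ᵐ c : Curve ∂(μ : Measure Curve), dimH (oB (Set.range c.path)) = 4 / 3 := by
  have hup := ul3 hU hHB hT hk hμ
  have hsq : ∀ᵐ c : Curve ∂(μ : Measure Curve), Set.range c.path ⊆ Sqc := by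
    have := Pool.Agent.W597.PDBL.bl hHB sel γ hT k hk μ hμ 1 one_pos
    filter_upwards [this] with c hc
    exact hc.1
  have hlow : ∀ j : ℕ, ∀ᵐ c : Curve ∂(μ : Measure Curve),
      ENNReal.ofReal (4 / 3 - 1 / ((j : ℝ) + 2)) ≤ dimH (oB (Set.range c.path)) := by
    intro j
    have hj : (0 : ℝ) ≤ j := Nat.cast_nonneg j
    have h1 : 1 / ((j : ℝ) + 2) ≤ 1 / 2 := one_div_le_one_div_of_le (by norm_num) (by linarith)
    have h2 : 0 < 1 / ((j : ℝ) + 2) := by positivity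
    have ht0 : 0 < 4 / 3 - 1 / ((j : ℝ) + 2) := by linarith
    have ht1 : 4 / 3 - 1 / ((j : ℝ) + 2) < 4 / 3 := by linarith
    choose S hSm hSp hS using fun i : ℕ =>
      one_exp hqc hchn hG hT hk hμ ht0 ht1 (η := 1 / ((i : ℝ) + 1)) (by positivity)
    have h0 : (μ : Measure Curve) (⋂ i, S i) = 0 := by
      have hle : ∀ i : ℕ, (μ : Measure Curve) (⋂ i, S i) ≤
          ENNReal.ofReal (1 / ((i : ℝ) + 1) + 1 / ((i : ℝ) + 1)) := fun i =>
        (measure_mono (Set.iInter_subset _ i)).trans (hSp i)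
      have hlim : Tendsto (fun i : ℕ => ENNReal.ofReal (1 / ((i : ℝ) + 1) + 1 / ((i : ℝ) + 1)))
          atTop (𝓝 0) := by
        rw [← ENNReal.ofReal_zero]
        apply ENNReal.tendsto_ofReal
        have := tendsto_one_div_add_atTop_nhds_zero_nat (𝕜 := ℝ)
        simpa using this.add this
      exact le_antisymm (ge_of_tendsto' hlim hle) bot_le
    have h3 : ∀ᵐ c : Curve ∂(μ : Measure Curve), c ∉ ⋂ i, S i := measure_eq_zero_iff_ae_notMem.1 h0
    filter_upwards [h3, hsq] with c hc1 hc2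
    rw [Set.mem_iInter, not_forall] at hc1
    obtain ⟨i, hi⟩ := hc1
    exact hS i c hc2 hi
  filter_upwards [hup, ae_all_iff.2 hlow] with c hc1 hc2
  refine le_antisymm hc1 ?_
  have hlim : Tendsto (fun j : ℕ => ENNReal.ofReal (4 / 3 - 1 / ((j:ℝ) + 2))) atTop
      (𝓝 (ENNReal.ofReal (4 / 3 - 0))) := by
    apply ENNReal.tendsto_ofReal
    apply tendsto_const_nhds.sub
    have h5 : Tendsto (fun j : ℕ => (j:ℝ) + 2) atTop atTop :=
      tendsto_atTop_add_const_right _ _ tendsto_natCast_atTop_atTop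
    exact h5.const_div_atTop 1
  rw [sub_zero, ← e43] at hlim
  exact le_of_tendsto' hlim hc2

/-- the final theorem, from `S_FINL` -/
theorem fin_as (hG : S_FINL) : ∀ (sel : (n : ℕ) → Finset Plain.Edge → ℤ × ℤ)
    (γ : (n : ℕ) → Finset Plain.Edge → Curve), Tr sel γ → ∀ (k : ℕ → ℕ),
    Tendsto k atTop atTop → ∀ μ : ProbabilityMeasure Curve,
    Tendsto (fun i => lawOf (k i) (γ (k i))) atTop (𝓝 μ) →
    ∀ᵐ c : Curve ∂(μ : Measure Curve), dimH (oB (Set.range c.path)) = 4 / 3 :=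
  fun _ _ hT _ hk _ hμ => lim_as Pool.Agent.Y989.FR.QC.t_QC Pool.Agent.Y989.FR.CHN.t_CHN
    Pool.Agent.W424.KI.u3 Pool.Agent.W320.PD.HB.hb hG hT hk hμ

end Pool.Agent.W2helper82.OA.P20
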