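import Pool.Agent.W2helper75.OA.P20
import Pool.Agent.W801.AV.All2
import Pool.Agent.W801.OS.All
import Pool.Agent.W328.KZR.All
import Pool.Agent.W424.OD.Cnt

/-!
# The number of the accessible vertices has order `n ^ (4/3)` with high probability
-/

set_option autoImplicit false

namespace Pool.Agent.W2helper75.OA.Acc

open H974 H12S Finset H389NS H984P H984N H342P H342L H342T
open Pool.Agent.W2helper82.OA Pool.Agent.W2helper82.OA.P20
open Pool.Agent.W424.OD (accessible Accessible avoidGraph)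
open Pool.Agent.Y989.FR.LIM3 (mem_AE_sd sd_bdB)
open Pool.Agent.W2helper75.OB (Avo cl_eq)
open Pool.Agent.W801.AV (TDET.reach_avoid)

theorem reach_avo {F : Finset Edg} {v p q : Vtx} (h : Reach (Avo F v) p q) :
    (avoidGraph (Plain.cluster F v)).Reachable p q := by
  refine TDET.reach_avoid (h.mono ?_)
  rintro e ⟨h1, h2⟩
  rw [← Plain.mem_cluster] at h1 h2
  exact ⟨h1, h2⟩

/-- an accessible vertex near a vertex with a thick path -/
theorem near_acc {n : ℕ} (hn : 2 ≤ n) {F : Finset Edg} (hF : F ⊆ Plain.edges n) {v w : Vtx}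
    (hv : v ∈ Plain.box n) (hw : w ∈ Plain.cluster F v) {M B : ℕ}
    (hth : Thk M B (2 * n) w (Plain.cluster F v)) :
    ∃ u, sd u w ≤ 2 ∧ u ∈ accessible n F v := by
  classical
  have hn0 : 0 < n := by omega
  obtain ⟨x, hx, y, hy, hr⟩ := hth
  have hx' := sd_bdB hx
  have hy' := sd_bdB hy
  have hxy : x ≠ y := by
    rintro rfl
    rw [hx'] at hy'
    have : (2:ℕ) = 2 * n := by exact_mod_cast hy'
    omega
  have hxC : x ∉ Plain.cluster F v := by
    rcases Relation.ReflTransGen.cases_head hr with h | ⟨c, ⟨g, ⟨h1, h2, h3⟩, h4⟩, -⟩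
    · exact absurd h hxy
    · rcases h4 with ⟨h6, h7⟩ | ⟨h6, h7⟩
      · rw [← h6]; exact awy_nmem h2
      · rw [← h7]; exact awy_nmem h3
  have hwb : w ∈ Plain.box n := TOPB_cluster hF hv hw
  have hyb : y ∉ Plain.box n := by
    intro hyb
    unfold Plain.box at hyb hwb
    rw [Finset.mem_product, Finset.mem_Icc, Finset.mem_Icc] at hyb hwb
    have h1 : sd y w ≤ n := by
      unfold sd
      apply max_le <;> rw [abs_le] <;> omega
    rw [hy'] at h1
    push_cast at h1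
    omega
  have hya := thick_avo hr
  have h2 : Reach (↑(blk w 2) : Set Edg) w x := blk_conn (by rw [hx'])
  rcases last_in h2 hxC with ⟨h3, -⟩ | ⟨u, p, h3, h4, ⟨e, -, h5⟩, h6, h7⟩
  · exact absurd hw h3
  · refine ⟨u, reach_sd subset_rfl h6, ?_⟩
    unfold accessible
    rw [Finset.mem_filter]
    refine ⟨TOPB_cluster hF hv h3, h3, e, p, y, ?_, h4, hyb, reach_avo (h7.trans hya)⟩
    rw [Plain.fst_eq, Plain.snd_eq]
    exact h5

theorem card_le {n : ℕ} (hn : 2 ≤ n) {F : Finset Edg} (hF : F ⊆ Plain.edges n) {v : Vtx}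
    (hv : v ∈ Plain.box n) {M B : ℕ} {c0 E0 t : ℝ}
    (h : RichOut n M B c0 E0 t (Plain.cluster F v)) :
    c0 * (n : ℝ) ^ (4 / 3 : ℝ) ≤ 25 * ((accessible n F v).card : ℝ) := by
  classical
  obtain ⟨V, hV, hc, -⟩ := h
  have h1 : ∀ w ∈ V, ∃ u, sd u w ≤ 2 ∧ u ∈ accessible n F v := fun w hw =>
    near_acc hn hF hv (hV w hw).1 (hV w hw).2
  choose! f hf1 hf2 using h1
  have h2 : V.card ≤ 25 * (V.image f).card := by
    apply Finset.card_le_mul_card_image
    intro u _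
    have h3 : V.filter (fun w => f w = u) ⊆
        Finset.Icc (u.1 - 2) (u.1 + 2) ×ˢ Finset.Icc (u.2 - 2) (u.2 + 2) := by
      intro w hw
      obtain ⟨h4, h5⟩ := Finset.mem_filter.1 hw
      have h6 := hf1 w h4
      rw [h5, sd_le_iff] at h6
      rw [Finset.mem_product, Finset.mem_Icc, Finset.mem_Icc]
      omega
    refine (Finset.card_le_card h3).trans ?_
    rw [Finset.card_product, Int.card_Icc, Int.card_Icc]
    have e1 : (u.1 + 2 + 1 - (u.1 - 2)).toNat = 5 := by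
      rw [show u.1 + 2 + 1 - (u.1 - 2) = 5 by ring]; rfl
    have e2 : (u.2 + 2 + 1 - (u.2 - 2)).toNat = 5 := by
      rw [show u.2 + 2 + 1 - (u.2 - 2) = 5 by ring]; rfl
    rw [e1, e2]
  have h3 : (V.image f).card ≤ (accessible n F v).card := by
    apply Finset.card_le_card
    intro u hu
    obtain ⟨w, hw, rfl⟩ := Finset.mem_image.1 hu
    exact hf2 w hw
  have h4 : (V.card : ℝ) ≤ 25 * ((accessible n F v).card : ℝ) := by
    have : V.card ≤ 25 * (accessible n F v).card := h2.trans (Nat.mul_le_mul_left _ h3)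
    exact_mod_cast this
  linarith

/-- **lower bound with high probability** -/
theorem low (hG : S_FINL) {δ : ℝ} (hδ : 0 < δ) : ∃ (c : ℝ) (n0 : ℕ), 0 < c ∧ ∀ n : ℕ, n0 ≤ n →
    Plain.prob n (fun F => ¬ ∀ v, Plain.Largest n F v →
      c * (n : ℝ) ^ (4 / 3 : ℝ) ≤ ((accessible n F v).card : ℝ)) ≤ δ := by
  obtain ⟨K', N0, hK', hsc⟩ := scale (δ / 2) (by positivity)
  obtain ⟨M, B, n0, c0, E0, hB, hc0, hE0, hGt⟩ := hG 1 one_pos (by norm_num) K' (δ / 2) hK'
    (by positivity)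
  refine ⟨c0 / 25, max (max n0 N0) 2, by positivity, fun n hn => ?_⟩
  rw [max_le_iff, max_le_iff] at hn
  obtain ⟨⟨hn1, hn2⟩, hn3⟩ := hn
  obtain ⟨m, hm1, hm2, hm3, hm4⟩ := hsc n hn2
  have h2 := hGt n m hn1 hm1 hm2
  have h3 : Plain.prob n (fun F => ¬ ∀ v, Plain.Largest n F v →
      c0 / 25 * (n : ℝ) ^ (4 / 3 : ℝ) ≤ ((accessible n F v).card : ℝ)) ≤
      Pr (fun _ => (1 / 2 : ℝ)) (RE 0 n 0 n)
        (fun F => (∃ u v : Vtx, inR 0 n 0 n u ∧ v ∈ Clu n u F ∧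
          (u.1 + m ≤ v.1 ∨ u.2 + m ≤ v.2) ∧ ¬ RichOut n M B c0 E0 1 (Clu n u F)) ∨
          ¬ H342P.Big n (m : ℤ) (↑F)) := by
    refine Plain.prob_le_of_pr ?_
    intro F hF hbad
    by_contra hcon
    push Not at hcon
    obtain ⟨hgd, hbig⟩ := hcon
    apply hbad
    intro v hL
    have hF' : F ⊆ RE 0 n 0 n := by rwa [← Plain.edges_eq]
    obtain ⟨a, b, hab1, hab2, hab3, hab4⟩ := ext_of_big hm3 hF hL hbig
    have h4 := hgd a b hab1 (by rw [clu_eq hF', cl_eq hab2]; exact hab3) hab4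
    rw [clu_eq hF', cl_eq hab2] at h4
    have h5 := card_le hn3 hF hL.1 h4
    linarith
  refine h3.trans ((Pr_or_le (fun _ => ⟨by norm_num, by norm_num⟩) _ _ _).trans ?_)
  refine (add_le_add h2 hm4).trans ?_
  linarith

/-- **upper bound with high probability** (starting files) -/
theorem upp {δ : ℝ} (hδ : 0 < δ) : ∃ K : ℝ, 0 < K ∧ ∀ n : ℕ, 1 ≤ n →
    Plain.prob n (fun F => ¬ ∀ v, Plain.Largest n F v →
      ((accessible n F v).card : ℝ) ≤ K * (n : ℝ) ^ (4 / 3 : ℝ)) ≤ δ := by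
  obtain ⟨C, hC, h⟩ := Pool.Agent.W801.OS.t_HON Pool.Agent.W658.KZ.a_UR3
  obtain ⟨K, hK, h1⟩ := Pool.Agent.W424.OD.cnt hC.le (s := 2 / 3) (by norm_num) (by norm_num) h hδ
  refine ⟨K, hK, fun n hn => ?_⟩
  have h2 := h1 n hn
  have h4 : (fun F : Finset Plain.Edge => ¬ ∀ v, Plain.Largest n F v →
      ((accessible n F v).card : ℝ) ≤ K * (n : ℝ) ^ (4 / 3 : ℝ)) =
      (fun F => ∃ v, Plain.Largest n F v ∧
        K * (n:ℝ) ^ (2 - 2 / 3 : ℝ) < ((Pool.Agent.W424.OD.accessible n F v).card : ℝ)) := by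
    funext F
    have e1 : (2 - 2 / 3 : ℝ) = 4 / 3 := by norm_num
    rw [e1]
    simp only [not_forall, not_le, exists_prop]
  rw [h4]
  exact h2

theorem prob_mono {n : ℕ} {A B : Finset Plain.Edge → Prop}
    (h : ∀ F, F ⊆ Plain.edges n → A F → B F) : Plain.prob n A ≤ Plain.prob n B := by
  rw [Plain.prob_eq, Plain.prob_eq]
  apply H974.Pr_mono (fun _ => ⟨by norm_num, by norm_num⟩)
  intro F hF
  exact h F (by rw [Plain.edges_eq]; exact hF)

theorem prob_or {n : ℕ} (A B : Finset Plain.Edge → Prop) :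
    Plain.prob n (fun F => A F ∨ B F) ≤ Plain.prob n A + Plain.prob n B := by
  rw [Plain.prob_eq, Plain.prob_eq, Plain.prob_eq]
  exact Pr_or_le (fun _ => ⟨by norm_num, by norm_num⟩) _ _ _

/-- **The number of the accessible vertices has order `n ^ (4/3)` with high probability.** -/
theorem sharp (hG : S_FINL) {δ : ℝ} (hδ : 0 < δ) : ∃ (lam Lam : ℝ) (n0 : ℕ), 0 < lam ∧
    ∀ n : ℕ, n0 ≤ n → 1 - δ ≤ Plain.prob n (fun F => ∀ v, Plain.Largest n F v →
      lam * (n : ℝ) ^ (4 / 3 : ℝ) ≤ ((accessible n F v).card : ℝ) ∧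
        ((accessible n F v).card : ℝ) ≤ Lam * (n : ℝ) ^ (4 / 3 : ℝ)) := by
  obtain ⟨lam, n0, h1, h2⟩ := low hG (half_pos hδ)
  obtain ⟨Lam, h3, h4⟩ := upp (half_pos hδ)
  refine ⟨lam, Lam, max n0 1, h1, fun n hn => ?_⟩
  have h5 := h2 n ((le_max_left _ _).trans hn)
  have h6 := h4 n ((le_max_right _ _).trans hn)
  have h7 := Plain.prob_not n (fun F => ∀ v, Plain.Largest n F v →
      lam * (n : ℝ) ^ (4 / 3 : ℝ) ≤ ((accessible n F v).card : ℝ) ∧
        ((accessible n F v).card : ℝ) ≤ Lam * (n : ℝ) ^ (4 / 3 : ℝ))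
  have h8 := prob_mono (n := n) (A := fun F => ¬ ∀ v, Plain.Largest n F v →
      lam * (n : ℝ) ^ (4 / 3 : ℝ) ≤ ((accessible n F v).card : ℝ) ∧
        ((accessible n F v).card : ℝ) ≤ Lam * (n : ℝ) ^ (4 / 3 : ℝ))
    (B := fun F => (¬ ∀ v, Plain.Largest n F v →
      lam * (n : ℝ) ^ (4 / 3 : ℝ) ≤ ((accessible n F v).card : ℝ)) ∨
      ¬ ∀ v, Plain.Largest n F v →
      ((accessible n F v).card : ℝ) ≤ Lam * (n : ℝ) ^ (4 / 3 : ℝ)) (by
    intro F _ h
    by_contra hcon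
    push Not at hcon
    exact h fun v hv => ⟨hcon.1 v hv, hcon.2 v hv⟩)
  have h9 := prob_or (n := n) (fun F => ¬ ∀ v, Plain.Largest n F v →
      lam * (n : ℝ) ^ (4 / 3 : ℝ) ≤ ((accessible n F v).card : ℝ))
      (fun F => ¬ ∀ v, Plain.Largest n F v →
      ((accessible n F v).card : ℝ) ≤ Lam * (n : ℝ) ^ (4 / 3 : ℝ))
  linarith

end Pool.Agent.W2helper75.OA.Acc
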