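import Pool.Agent.W2helper75.OB.Good
import Pool.Agent.W2helper82.OA.Stm

/-!
# Outer boundaries, almost sure lower bound: one-point and two-point bounds
-/

set_option autoImplicit false

namespace Pool.Agent.W2helper82.OA.P11

open H974 H973 H12S Finset H389NS H984P H984N H342P
open Pool.Agent.W801.AV (TONE.okh TONE.re_sub TONE.blk_mono TDET.reach_avoid TDET.firstBox
  TFIR.okh)
open Pool.Agent.W424.OD (mem_bdB_iff)
open Pool.Agent.Y989.FR (TkA cl Awy S_ACC S_THK)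
open Pool.Agent.Y989.FR.ONE3 (reach_sh bdB_sh blk_sh sd_sh src_trl tgt_trl)
open Pool.Agent.W2helper75.OB (psi0 blk_box re_blk)

theorem ctr_eq (n : ℕ) : CtrS n = Pool.Agent.W801.AV.Ctr n := rfl

theorem clu_eq {n : ℕ} {F : Finset Edg} (hF : F ⊆ RE 0 n 0 n) (v : Vtx) :
    Clu n v F = Plain.cluster F v := by
  ext x
  unfold Clu
  rw [Plain.mem_cluster, Set.mem_ofPred_eq, ← Finset.coe_inter, Finset.inter_eq_left.2 hF]

theorem mem_KH {m : ℕ} {w : Vtx} {F : Finset Edg} {x : Vtx}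
    (hx : Reach (↑((trl w.1 w.2).mp F) ∩ ↑(blk w m)) w x) :
    (trl w.1 w.2).ψ.symm x ∈ cl m ↑F := by
  have h1 := (trl w.1 w.2).inv.reach hx
  have e0 : (trl w.1 w.2).ψ.symm w = (0, 0) := by
    rw [Equiv.symm_apply_eq]
    exact (psi0 w).symm
  have h2 : Reach (↑F ∩ ↑(boxE m) : Set Edg) ((trl w.1 w.2).ψ.symm w)
      ((trl w.1 w.2).ψ.symm x) := by
    refine h1.mono ?_
    rintro _ ⟨e, he, rfl⟩
    rw [Set.mem_inter_iff, Finset.mem_coe, Finset.mem_coe] at he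
    refine ⟨?_, ?_⟩
    · have h3 := he.1
      rw [LSym.mem_mp] at h3
      exact h3
    · rw [← blk_box, Finset.mem_coe, ← blk_sh (v := w)]
      have h4 : (trl w.1 w.2).φ ((trl w.1 w.2).inv.φ e) = e := Equiv.apply_symm_apply _ _
      rw [h4]
      exact he.2
  rw [e0] at h2
  exact h2

theorem KH_of {m : ℕ} {w : Vtx} {F : Finset Edg} {x : Vtx} (hx : x ∈ cl m (↑F : Set Edg)) :
    Reach (↑((trl w.1 w.2).mp F) ∩ ↑(blk w m)) w ((trl w.1 w.2).ψ x) := by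
  have h2 := reach_sh (s := w.1) (t := w.2)
    (F := (↑((trl w.1 w.2).mp F) ∩ ↑(blk w m) : Set Edg)) ?_ hx
  · rwa [psi0] at h2
  · rintro e ⟨h3, h4⟩
    refine ⟨?_, ?_⟩
    · rw [Finset.mem_coe, LSym.mem_mp, Equiv.symm_apply_apply]
      exact h3
    · rw [Finset.mem_coe, blk_sh, blk_box]
      exact h4

theorem det {M B n : ℕ} {w : Vtx} {F : Finset Edg} (hn : 1 ≤ n) (hw : w ∈ CtrS n)
    (hA : Pool.Agent.Y989.FR.Acc (128 * n) ↑F) (hT : TkA M B (2 * n) (128 * n) ↑F) :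
    BaseEv M B n w ((trl w.1 w.2).mp F) := by
  set G := (trl w.1 w.2).mp F with hG
  have hKH : ∀ x, x ∈ KH n w G → (trl w.1 w.2).ψ.symm x ∈ cl (128 * n) ↑F :=
    fun x hx => mem_KH hx
  have hcl : ∀ x, x ∈ Clu n w G → (trl w.1 w.2).ψ.symm x ∈ cl (128 * n) ↑F := by
    intro x hx
    refine hKH x (Reach.mono ?_ hx)
    rintro e ⟨h1, h2⟩
    refine ⟨h1, ?_⟩
    rw [Finset.mem_coe] at h2 ⊢
    rw [ctr_eq] at hw
    exact TONE.blk_mono w (by omega) (TONE.re_sub hw h2)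
  have hwin : inR 0 n 0 n w := by
    unfold CtrS at hw
    obtain ⟨h1, -, -⟩ := Finset.mem_filter.1 hw
    unfold BX at h1
    rw [Finset.mem_product, Finset.mem_Icc, Finset.mem_Icc] at h1
    exact h1
  obtain ⟨⟨z, hz, hzc⟩, h10, y, hy, hr⟩ := hA
  refine ⟨⟨Reach.refl _ _, ⟨(trl w.1 w.2).ψ (1, 0), ?_, ?_, (trl w.1 w.2).ψ y,
    ?_, ?_⟩, ?_⟩, ?_, ?_⟩
  · refine ⟨(trl w.1 w.2).φ (0, 0, true), Set.mem_univ _, Or.inl ⟨?_, ?_⟩⟩
    · rw [src_trl, src_mk, psi0]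
    · rw [tgt_trl, tgt_true]
      rfl
  · intro h
    have h2 := hcl _ h
    rw [Equiv.symm_apply_apply] at h2
    exact h10 h2
  · intro h
    have hy2 := (bdB_sh (v := w)).2 hy
    rw [mem_bdB_iff] at hy2
    unfold Pool.Agent.W424.OD.BX inR at hy2
    unfold inR at hwin h
    push_cast at hy2
    omega
  · refine reach_sh ?_ hr
    rintro e ⟨-, h2, h3⟩
    refine ⟨?_, ?_⟩
    · intro h4
      rw [src_trl] at h4
      have h5 := hcl _ h4
      rw [Equiv.symm_apply_apply] at h5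
      exact h2 h5
    · intro h4
      rw [tgt_trl] at h4
      have h5 := hcl _ h4
      rw [Equiv.symm_apply_apply] at h5
      exact h3 h5
  · have hz2 := (bdB_sh (v := w)).2 hz
    have h1 : Reach (↑G : Set Edg) w ((trl w.1 w.2).ψ z) :=
      (KH_of hzc).mono Set.inter_subset_left
    rcases TDET.firstBox hwin h1 with ⟨h2, -⟩ | ⟨t, ht, h2⟩
    · exfalso
      rw [mem_bdB_iff] at hz2
      unfold Pool.Agent.W424.OD.BX inR at hz2
      unfold inR at h2 hwin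
      push_cast at hz2
      omega
    · exact ⟨t, h2, ht⟩
  · exact ⟨(trl w.1 w.2).ψ z, (bdB_sh (v := w)).2 hz, KH_of hzc⟩
  · have key : ∀ x : Vtx, (∀ c ∈ cl (128 * n) (↑F : Set Edg), Awy M B (2 * n) (0, 0) c x) →
        ∀ c ∈ KH n w G, Awy M B (2 * n) w c ((trl w.1 w.2).ψ x) := by
      intro x hx c hc
      have h1 := hx _ (hKH _ hc)
      unfold Awy at h1 ⊢
      have h2 : sd ((trl w.1 w.2).ψ x) w = sd x (0, 0) := by
        have h4 := sd_sh w.1 w.2 x (0, 0)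
        rwa [psi0] at h4
      have h3 : sd ((trl w.1 w.2).ψ x) c = sd x ((trl w.1 w.2).ψ.symm c) := by
        have h4 := sd_sh w.1 w.2 x ((trl w.1 w.2).ψ.symm c)
        rwa [Equiv.apply_symm_apply] at h4
      rw [h2, h3]
      exact h1
    obtain ⟨x, hx, y, hy, hr⟩ := hT
    refine ⟨(trl w.1 w.2).ψ x, bdB_sh.2 hx, (trl w.1 w.2).ψ y, bdB_sh.2 hy, reach_sh ?_ hr⟩
    rintro e ⟨h1, h2, h3⟩
    refine ⟨?_, ?_, ?_⟩
    · unfold Pool.Agent.Y989.FR.AE at h1 ⊢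
      rw [Finset.mem_coe, Finset.mem_sdiff] at h1 ⊢
      rw [blk_sh, blk_sh]
      exact h1
    · rw [src_trl]
      exact key _ h2
    · rw [tgt_trl]
      exact key _ h3

theorem mp_box (m : ℕ) (w : Vtx) : (trl w.1 w.2).mp (boxE m) = blk w m := by
  ext e
  rw [LSym.mem_mp, ← blk_box, ← blk_sh (v := w), Equiv.apply_symm_apply]

theorem base (hACC : S_ACC) (hTHK : S_THK) : S_BASE := by
  obtain ⟨c, hc, h1⟩ := hACC
  obtain ⟨M, B, m0, hM, hB, h2⟩ := hTHK (c / 2) (by positivity)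
  refine ⟨M, B, max m0 16, c / 2 * (128 : ℝ) ^ (-(2 / 3 : ℝ)), hM, hB, by positivity, ?_⟩
  intro n hn w hw
  have hn0 : m0 ≤ n := (le_max_left _ _).trans hn
  have hn16 : 16 ≤ n := (le_max_right _ _).trans hn
  have ok : Ok (fun _ : Edg => (1 / 2 : ℝ)) := TONE.okh
  have e1 := h1 (128 * n) (by omega)
  have e2 := h2 (128 * n) (by omega)
  have hdiv : 128 * n / 64 = 2 * n := by omega
  rw [hdiv] at e2
  have e3 : PQ (1 / 2) (boxE (128 * n)) (fun F => Pool.Agent.Y989.FR.Acc (128 * n) ↑F) ≤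
      PQ (1 / 2) (boxE (128 * n)) (fun F => Pool.Agent.Y989.FR.Acc (128 * n) ↑F ∧ TkA M B (2 * n) (128 * n) ↑F) +
      PQ (1 / 2) (boxE (128 * n))
        (fun F => Pool.Agent.Y989.FR.Acc (128 * n) ↑F ∧ ¬ TkA M B (2 * n) (128 * n) ↑F) := by
    refine le_trans (Pr_mono ok ?_) (Pr_or_le ok (boxE (128 * n)) _ _)
    intro F _ h
    by_cases hT : TkA M B (2 * n) (128 * n) ↑F
    · exact Or.inl ⟨h, hT⟩
    · exact Or.inr ⟨h, hT⟩
  have e4 : c / 2 * ((128 * n : ℕ) : ℝ) ^ (-(2 / 3 : ℝ)) ≤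
      PQ (1 / 2) (boxE (128 * n))
        (fun F => Pool.Agent.Y989.FR.Acc (128 * n) ↑F ∧ TkA M B (2 * n) (128 * n) ↑F) := by linarith
  have e5 : ((128 * n : ℕ) : ℝ) ^ (-(2 / 3 : ℝ)) =
      (128 : ℝ) ^ (-(2 / 3 : ℝ)) * (n : ℝ) ^ (-(2 / 3 : ℝ)) := by
    push_cast
    rw [Real.mul_rpow (by norm_num) (Nat.cast_nonneg n)]
  rw [e5, ← mul_assoc] at e4
  refine e4.trans ?_
  calc PQ (1 / 2) (boxE (128 * n))
        (fun F => Pool.Agent.Y989.FR.Acc (128 * n) ↑F ∧ TkA M B (2 * n) (128 * n) ↑F)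
      ≤ Pr (fun _ => (1 / 2 : ℝ)) (boxE (128 * n))
        (fun F => BaseEv M B n w ((trl w.1 w.2).mp F)) := by
        refine Pr_mono ok ?_
        rintro F _ ⟨k1, k2⟩
        exact det (by omega) hw k1 k2
    _ = Pr (fun _ => (1 / 2 : ℝ)) ((trl w.1 w.2).mp (boxE (128 * n)))
        (fun F => BaseEv M B n w F) := by
        rw [LSym.pr]
    _ = Pr ph (blk w (128 * n)) (BaseEv M B n w) := by
        rw [mp_box]

theorem e_of_el {n : ℕ} {v : Vtx} {F : Finset Edg} (hF : F ⊆ RE 0 n 0 n)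
    (h : EL n v (Clu n v F)) : Pool.Agent.W801.AV.E n v F := by
  obtain ⟨h1, ⟨p, hp, hpW, q, hq, hr⟩, hz⟩ := h
  rw [clu_eq hF] at h1 hpW hr hz
  refine ⟨⟨h1, ?_⟩, hz⟩
  obtain ⟨e, -, he⟩ := hp
  refine ⟨e, p, q, ?_, hpW, ?_, TDET.reach_avoid hr⟩
  · rw [Plain.fst_eq, Plain.snd_eq]
    exact he
  · intro hqb
    apply hq
    unfold Plain.box at hqb
    rw [Finset.mem_product, Finset.mem_Icc, Finset.mem_Icc] at hqb
    exact hqb

theorem twol (hTWO : Pool.Agent.W801.AV.S_TWO) (hONU : Pool.Agent.W801.AV.S_ONU) : S_TWOL := by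
  obtain ⟨C1, hC1, h1⟩ := hTWO
  obtain ⟨C2, hC2, h2⟩ := hONU
  refine ⟨C1 + C2, 16, by positivity, ?_⟩
  intro n hn v hv w hw
  have hn0 : (0 : ℝ) ≤ n := Nat.cast_nonneg n
  have hsd : 0 ≤ sd v w := le_max_of_le_left (abs_nonneg _)
  have hnn : 0 ≤ (n : ℝ) ^ (-(2 / 3) : ℝ) := Real.rpow_nonneg hn0 _
  by_cases h0 : sd v w = 0
  · rw [h0, max_eq_right (by norm_num), Int.cast_one, Real.one_rpow, mul_one]
    have h3 := h2 n v hn hv
    refine (Pr_mono TFIR.okh (B := Pool.Agent.W801.AV.E n v) ?_).trans (h3.trans ?_)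
    · rintro F hF ⟨k, -⟩
      exact e_of_el hF k
    · nlinarith
  · have h3 : 1 ≤ sd v w := by omega
    obtain ⟨r, hr⟩ : ∃ r : ℕ, (r : ℤ) = sd v w := ⟨(sd v w).toNat, Int.toNat_of_nonneg hsd⟩
    have h4 := h1 n r v w hn hv hw (by omega) hr
    have h5 : ((max (sd v w) 1 : ℤ) : ℝ) = (r : ℝ) := by
      rw [max_eq_left h3, ← hr, Int.cast_natCast]
    rw [h5]
    refine (Pr_mono TFIR.okh ?_).trans (h4.trans ?_)
    · rintro F hF ⟨k, k'⟩
      exact ⟨e_of_el hF k, e_of_el hF k'⟩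
    · have h6 : 0 ≤ (r : ℝ) ^ (-(2 / 3) : ℝ) := Real.rpow_nonneg (Nat.cast_nonneg _) _
      have h7 : 0 ≤ (r : ℝ) ^ (-(2 / 3) : ℝ) * (n : ℝ) ^ (-(2 / 3) : ℝ) := mul_nonneg h6 hnn
      nlinarith

end Pool.Agent.W2helper82.OA.P11
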